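import Pool.Agent.T6.H57.MG.Wirt

/-!
# Truncated fluxes of a minimal graph
-/

set_option autoImplicit false

open MeasureTheory Set Filter Topology Real

namespace Pool.Agent.T6.H57.MG

noncomputable section

/-! ### truncation functions -/

/-- `0` on `t ≤ ε`, `1` on `t ≥ 2 ε`, linear between -/
def pf (ε t : ℝ) : ℝ := max 0 (min 1 (t / ε - 1))

def gf (ε t : ℝ) : ℝ := ∫ s in (0 : ℝ)..t, pf ε s

def hf (ε t : ℝ) : ℝ := ∫ s in (0 : ℝ)..t, pf ε s ^ 2

theorem pf_cont (ε : ℝ) : Continuous (pf ε) := by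
  unfold pf
  fun_prop

theorem pf_nonneg (ε t : ℝ) : 0 ≤ pf ε t := le_max_left _ _

theorem pf_le_one (ε t : ℝ) : pf ε t ≤ 1 := by
  unfold pf
  exact max_le zero_le_one (min_le_left _ _)

theorem pf_zero {ε t : ℝ} (hε : 0 < ε) (ht : t ≤ ε) : pf ε t = 0 := by
  unfold pf
  apply max_eq_left
  have : t / ε ≤ 1 := (div_le_one hε).2 ht
  exact (min_le_right _ _).trans (by linarith)

theorem pf_pos {ε t : ℝ} (hε : 0 < ε) (ht : ε < t) : 0 < pf ε t := by
  unfold pf
  have : 1 < t / ε := (one_lt_div hε).2 ht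
  exact lt_max_of_lt_right (lt_min one_pos (by linarith))

theorem pf_one {ε t : ℝ} (hε : 0 < ε) (ht : ε ≤ t) : pf (ε / 2) t = 1 := by
  unfold pf
  have h : 1 ≤ t / ε := (one_le_div hε).2 ht
  have h2 : t / (ε / 2) = 2 * (t / ε) := by field_simp
  rw [h2, min_eq_left (by linarith), max_eq_right zero_le_one]

theorem pf_mono {ε : ℝ} (hε : 0 < ε) : Monotone (pf ε) := by
  intro s t hst
  unfold pf
  apply max_le_max le_rfl
  apply min_le_min le_rfl
  have := div_le_div_of_nonneg_right hst hε.le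
  linarith

theorem pf_half {ε : ℝ} (hε : 0 < ε) (t : ℝ) : pf ε t ≤ pf (ε / 2) t := by
  rcases le_or_gt t ε with h | h
  · rw [pf_zero hε h]
    exact pf_nonneg _ _
  · rw [pf_one hε h.le]
    exact pf_le_one _ _

theorem gf_hasDerivAt (ε t : ℝ) : HasDerivAt (gf ε) (pf ε t) t :=
  ((pf_cont ε).integral_hasStrictDerivAt 0 t).hasDerivAt

theorem hf_hasDerivAt (ε t : ℝ) : HasDerivAt (hf ε) (pf ε t ^ 2) t :=
  (((pf_cont ε).pow 2).integral_hasStrictDerivAt 0 t).hasDerivAt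

theorem gf_cont (ε : ℝ) : Continuous (gf ε) :=
  continuous_iff_continuousAt.2 fun t => (gf_hasDerivAt ε t).continuousAt

theorem gf_contDiff (ε : ℝ) : ContDiff ℝ 1 (gf ε) := by
  rw [contDiff_one_iff_deriv]
  refine ⟨fun t => (gf_hasDerivAt ε t).differentiableAt, ?_⟩
  rw [show deriv (gf ε) = pf ε from funext fun t => (gf_hasDerivAt ε t).deriv]
  exact pf_cont ε

theorem hf_contDiff (ε : ℝ) : ContDiff ℝ 1 (hf ε) := by
  rw [contDiff_one_iff_deriv]
  refine ⟨fun t => (hf_hasDerivAt ε t).differentiableAt, ?_⟩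
  rw [show deriv (hf ε) = fun t => pf ε t ^ 2 from funext fun t => (hf_hasDerivAt ε t).deriv]
  exact (pf_cont ε).pow 2

theorem gf_zero {ε t : ℝ} (hε : 0 < ε) (ht : t ≤ ε) : gf ε t = 0 := by
  unfold gf
  rw [intervalIntegral.integral_congr (g := fun _ => 0)]
  · simp
  · intro s hs
    show pf ε s = 0
    apply pf_zero hε
    rw [mem_uIcc] at hs
    rcases hs with h | h <;> linarith [h.1, h.2]

theorem hf_zero {ε t : ℝ} (hε : 0 < ε) (ht : t ≤ ε) : hf ε t = 0 := by
  unfold hf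
  rw [intervalIntegral.integral_congr (g := fun _ => 0)]
  · simp
  · intro s hs
    show pf ε s ^ 2 = 0
    rw [pf_zero hε, zero_pow two_ne_zero]
    rw [mem_uIcc] at hs
    rcases hs with h | h <;> linarith [h.1, h.2]

theorem gf_nonneg (ε t : ℝ) (ht : 0 ≤ t) : 0 ≤ gf ε t :=
  intervalIntegral.integral_nonneg ht fun s _ => pf_nonneg ε s

theorem hf_nonneg (ε t : ℝ) (ht : 0 ≤ t) : 0 ≤ hf ε t :=
  intervalIntegral.integral_nonneg ht fun _ _ => sq_nonneg _

theorem gf_le (ε t : ℝ) (ht : 0 ≤ t) : gf ε t ≤ t := by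
  have h : gf ε t ≤ ∫ _ in (0 : ℝ)..t, (1 : ℝ) :=
    intervalIntegral.integral_mono ht ((pf_cont ε).intervalIntegrable _ _)
      intervalIntegrable_const (fun s => pf_le_one ε s)
  simpa using h

theorem hf_le {ε : ℝ} (hε : 0 < ε) (t : ℝ) (ht : 0 ≤ t) : hf ε t ≤ gf ε t * pf ε t := by
  unfold gf hf
  rw [← intervalIntegral.integral_mul_const]
  apply intervalIntegral.integral_mono_on ht (((pf_cont ε).pow 2).intervalIntegrable _ _)
    (((pf_cont ε).mul continuous_const).intervalIntegrable _ _)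
  intro s hs
  rw [pow_two]
  exact mul_le_mul_of_nonneg_left (pf_mono hε hs.2) (pf_nonneg _ _)

theorem gf_pos {ε t : ℝ} (hε : 0 < ε) (ht : ε < t) : 0 < gf ε t := by
  have h1 : gf ε t = gf ε ε + ∫ s in ε..t, pf ε s := by
    unfold gf
    rw [intervalIntegral.integral_add_adjacent_intervals ((pf_cont ε).intervalIntegrable _ _)
      ((pf_cont ε).intervalIntegrable _ _)]
  rw [h1, gf_zero hε le_rfl, zero_add]
  exact intervalIntegral.intervalIntegral_pos_of_pos_on ((pf_cont ε).intervalIntegrable _ _)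
    (fun s hs => pf_pos hε hs.1) ht

/-! ### the setting -/

/-- `∂u/∂x` -/
def ux (u : ℂ → ℝ) (z : ℂ) : ℝ := fderiv ℝ u z 1

/-- `∂u/∂y` -/
def uy (u : ℂ → ℝ) (z : ℂ) : ℝ := fderiv ℝ u z Complex.I

/-- `√(1 + |∇u|²)` -/
def W (u : ℂ → ℝ) (z : ℂ) : ℝ := √(1 + (ux u z ^ 2 + uy u z ^ 2))

/-- `u` is a solution of the problem `(∗)` in `D`: `u ∈ C²(D) ∩ C(closure D)` satisfies the
minimal surface equation in divergence form in `D`, `u > 0` in `D` and `u = 0` on the boundary. -/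
structure IsSolution (D : Set ℂ) (u : ℂ → ℝ) : Prop where
  smooth : ContDiffOn ℝ 2 u D
  cont : ContinuousOn u (closure D)
  mse : ∀ z ∈ D, fderiv ℝ (fun w => ux u w / W u w) z 1
    + fderiv ℝ (fun w => uy u w / W u w) z Complex.I = 0
  pos : ∀ z ∈ D, 0 < u z
  bdry : ∀ z ∈ frontier D, u z = 0

variable {D : Set ℂ} {u : ℂ → ℝ}

/-- the extension by zero -/
def ut (D : Set ℂ) (u : ℂ → ℝ) : ℂ → ℝ := D.indicator u

theorem ut_cont (h : IsSolution D u) : Continuous (ut D u) :=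
  continuous_indicator h.bdry h.cont

theorem ut_mem {z : ℂ} (hz : z ∈ D) : ut D u z = u z := indicator_of_mem hz u

theorem ut_not_mem {z : ℂ} (hz : z ∉ D) : ut D u z = 0 := indicator_of_notMem hz u

theorem ut_nonneg (h : IsSolution D u) (z : ℂ) : 0 ≤ ut D u z := by
  by_cases hz : z ∈ D
  · rw [ut_mem hz]; exact (h.pos z hz).le
  · rw [ut_not_mem hz]

/-- a cut off product is eventually zero near a point of the complement -/
theorem cut_zero (h : IsSolution D u) {ε : ℝ} (hε : 0 < ε) (k : ℝ → ℝ) (hk : ∀ t ≤ ε, k t = 0)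
    (φ : ℂ → ℝ) {z : ℂ} (hz : z ∉ D) :
    D.indicator (fun z => k (u z) * φ z) =ᶠ[𝓝 z] fun _ => 0 := by
  have h1 : ∀ᶠ w in 𝓝 z, ut D u w < ε := by
    apply (ut_cont h).continuousAt.eventually_lt_const
    rw [ut_not_mem hz]
    exact hε
  filter_upwards [h1] with w hw
  by_cases hwD : w ∈ D
  · rw [indicator_of_mem hwD]
    rw [ut_mem hwD] at hw
    rw [hk _ hw.le, zero_mul]
  · exact indicator_of_notMem hwD _

theorem cut_cont (hD : IsOpen D) (h : IsSolution D u) {ε : ℝ} (hε : 0 < ε) (k : ℝ → ℝ)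
    (hk : ∀ t ≤ ε, k t = 0) (hkc : Continuous k) (φ : ℂ → ℝ) (hφ : ContinuousOn φ D) :
    Continuous (D.indicator (fun z => k (u z) * φ z)) := by
  rw [continuous_iff_continuousAt]
  intro z
  by_cases hz : z ∈ D
  · have hD' : D ∈ 𝓝 z := hD.mem_nhds hz
    have h1 : ContinuousAt (fun z => k (u z) * φ z) z :=
      (hkc.continuousAt.comp ((h.smooth.continuousOn).continuousAt hD')).mul
        (hφ.continuousAt hD')
    refine h1.congr ?_
    filter_upwards [hD'] with w hw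
    rw [indicator_of_mem hw]
  · exact continuousAt_const.congr (cut_zero h hε k hk φ hz).symm

theorem cut_contDiff (hD : IsOpen D) (h : IsSolution D u) {ε : ℝ} (hε : 0 < ε) (k : ℝ → ℝ)
    (hk : ∀ t ≤ ε, k t = 0) (hkc : ContDiff ℝ 1 k) (φ : ℂ → ℝ) (hφ : ContDiffOn ℝ 1 φ D) :
    ContDiff ℝ 1 (D.indicator (fun z => k (u z) * φ z)) := by
  rw [contDiff_iff_contDiffAt]
  intro z
  by_cases hz : z ∈ D
  · have hD' : D ∈ 𝓝 z := hD.mem_nhds hz
    have h0 : ContDiffAt ℝ 1 u z := (h.smooth.contDiffAt hD').of_le (by norm_num)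
    have h1 : ContDiffAt ℝ 1 (fun z => k (u z) * φ z) z :=
      (hkc.contDiffAt.comp z h0).mul (hφ.contDiffAt hD')
    refine h1.congr_of_eventuallyEq ?_
    filter_upwards [hD'] with w hw
    rw [indicator_of_mem hw]
  · exact contDiffAt_const.congr_of_eventuallyEq (cut_zero h hε k hk φ hz)

theorem one_le_W (z : ℂ) : 1 ≤ W u z := by
  unfold W
  rw [Real.one_le_sqrt]
  nlinarith [sq_nonneg (ux u z), sq_nonneg (uy u z)]

theorem W_sq (z : ℂ) : W u z ^ 2 = 1 + (ux u z ^ 2 + uy u z ^ 2) := by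
  unfold W
  rw [Real.sq_sqrt]
  nlinarith [sq_nonneg (ux u z), sq_nonneg (uy u z)]

theorem ux_contDiffOn (hD : IsOpen D) (h : IsSolution D u) : ContDiffOn ℝ 1 (ux u) D := by
  intro z hz
  have h0 : ContDiffAt ℝ 2 u z := h.smooth.contDiffAt (hD.mem_nhds hz)
  have h1 : ContDiffAt ℝ 1 (fderiv ℝ u) z := h0.fderiv_right (m := 1) (by norm_num)
  exact (h1.clm_apply contDiffAt_const).contDiffWithinAt

theorem uy_contDiffOn (hD : IsOpen D) (h : IsSolution D u) : ContDiffOn ℝ 1 (uy u) D := by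
  intro z hz
  have h0 : ContDiffAt ℝ 2 u z := h.smooth.contDiffAt (hD.mem_nhds hz)
  have h1 : ContDiffAt ℝ 1 (fderiv ℝ u) z := h0.fderiv_right (m := 1) (by norm_num)
  exact (h1.clm_apply contDiffAt_const).contDiffWithinAt

theorem W_contDiffOn (hD : IsOpen D) (h : IsSolution D u) : ContDiffOn ℝ 1 (W u) D := by
  have h1 : ContDiffOn ℝ 1 (fun z => 1 + (ux u z ^ 2 + uy u z ^ 2)) D :=
    contDiffOn_const.add (((ux_contDiffOn hD h).pow 2).add ((uy_contDiffOn hD h).pow 2))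
  refine h1.sqrt (fun z _ => ?_)
  nlinarith [sq_nonneg (ux u z), sq_nonneg (uy u z)]

theorem qx_contDiffOn (hD : IsOpen D) (h : IsSolution D u) :
    ContDiffOn ℝ 1 (fun z => ux u z / W u z) D :=
  (ux_contDiffOn hD h).div (W_contDiffOn hD h)
    (fun z _ => (zero_lt_one.trans_le (one_le_W z)).ne')

theorem qy_contDiffOn (hD : IsOpen D) (h : IsSolution D u) :
    ContDiffOn ℝ 1 (fun z => uy u z / W u z) D :=
  (uy_contDiffOn hD h).div (W_contDiffOn hD h)
    (fun z _ => (zero_lt_one.trans_le (one_le_W z)).ne')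

/-- the vector field -/
def XX (D : Set ℂ) (u : ℂ → ℝ) (ε : ℝ) : ℂ → ℝ :=
  D.indicator (fun z => hf ε (u z) * (ux u z / W u z))

def YY (D : Set ℂ) (u : ℂ → ℝ) (ε : ℝ) : ℂ → ℝ :=
  D.indicator (fun z => hf ε (u z) * (uy u z / W u z))

/-- the truncated energy density -/
def ee (D : Set ℂ) (u : ℂ → ℝ) (ε : ℝ) : ℂ → ℝ :=
  D.indicator (fun z => pf ε (u z) ^ 2 * ((ux u z ^ 2 + uy u z ^ 2) / W u z))

/-- the truncated function -/
def GG (D : Set ℂ) (u : ℂ → ℝ) (ε : ℝ) : ℂ → ℝ :=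
  D.indicator (fun z => gf ε (u z) * 1)

/-- the weight -/
def ww (D : Set ℂ) (u : ℂ → ℝ) (ε : ℝ) : ℂ → ℝ :=
  fun z => 1 + D.indicator (fun z => pf ε (u z) ^ 2 * (W u z - 1)) z

theorem XX_contDiff (hD : IsOpen D) (h : IsSolution D u) {ε : ℝ} (hε : 0 < ε) :
    ContDiff ℝ 1 (XX D u ε) :=
  cut_contDiff hD h hε (hf ε) (fun _ ht => hf_zero hε ht) (hf_contDiff ε) _ (qx_contDiffOn hD h)

theorem YY_contDiff (hD : IsOpen D) (h : IsSolution D u) {ε : ℝ} (hε : 0 < ε) :
    ContDiff ℝ 1 (YY D u ε) :=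
  cut_contDiff hD h hε (hf ε) (fun _ ht => hf_zero hε ht) (hf_contDiff ε) _ (qy_contDiffOn hD h)

theorem GG_contDiff (hD : IsOpen D) (h : IsSolution D u) {ε : ℝ} (hε : 0 < ε) :
    ContDiff ℝ 1 (GG D u ε) :=
  cut_contDiff hD h hε (gf ε) (fun _ ht => gf_zero hε ht) (gf_contDiff ε) _ contDiffOn_const

theorem ee_cont (hD : IsOpen D) (h : IsSolution D u) {ε : ℝ} (hε : 0 < ε) :
    Continuous (ee D u ε) := by
  apply cut_cont hD h hε (fun t => pf ε t ^ 2) (fun t ht => by simp [pf_zero hε ht])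
    ((pf_cont ε).pow 2)
  exact (((ux_contDiffOn hD h).continuousOn.pow 2).add
    ((uy_contDiffOn hD h).continuousOn.pow 2)).div (W_contDiffOn hD h).continuousOn
    (fun z _ => (zero_lt_one.trans_le (one_le_W z)).ne')

theorem ww_cont (hD : IsOpen D) (h : IsSolution D u) {ε : ℝ} (hε : 0 < ε) :
    Continuous (ww D u ε) := by
  apply continuous_const.add
  apply cut_cont hD h hε (fun t => pf ε t ^ 2) (fun t ht => by simp [pf_zero hε ht])
    ((pf_cont ε).pow 2)
  exact (W_contDiffOn hD h).continuousOn.sub continuousOn_const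

theorem ee_nonneg (ε : ℝ) (z : ℂ) : 0 ≤ ee D u ε z := by
  unfold ee
  apply indicator_nonneg
  intro z _
  have := one_le_W (u := u) z
  positivity

theorem one_le_ww (ε : ℝ) (z : ℂ) : 1 ≤ ww D u ε z := by
  unfold ww
  have : 0 ≤ D.indicator (fun z => pf ε (u z) ^ 2 * (W u z - 1)) z := by
    apply indicator_nonneg
    intro z _
    have := one_le_W (u := u) z
    exact mul_nonneg (sq_nonneg _) (by linarith)
  linarith

theorem ww_le (ε : ℝ) (z : ℂ) : ww D u ε z ≤ 1 + ee D u ε z := by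
  unfold ww ee
  by_cases hz : z ∈ D
  · rw [indicator_of_mem hz, indicator_of_mem hz]
    have h1 := one_le_W (u := u) z
    have h2 := W_sq (u := u) z
    have h3 : W u z - 1 ≤ (ux u z ^ 2 + uy u z ^ 2) / W u z := by
      rw [le_div_iff₀ (by linarith)]
      nlinarith
    have := mul_le_mul_of_nonneg_left h3 (sq_nonneg (pf ε (u z)))
    linarith
  · rw [indicator_of_notMem hz, indicator_of_notMem hz]

/-- the divergence of the field is the truncated energy density -/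
theorem div_eq (hD : IsOpen D) (h : IsSolution D u) {ε : ℝ} (hε : 0 < ε) (z : ℂ) :
    fderiv ℝ (XX D u ε) z 1 + fderiv ℝ (YY D u ε) z Complex.I = ee D u ε z := by
  by_cases hz : z ∈ D
  · have hD' : D ∈ 𝓝 z := hD.mem_nhds hz
    have e1 : XX D u ε =ᶠ[𝓝 z] fun z => hf ε (u z) * (ux u z / W u z) := by
      filter_upwards [hD'] with w hw
      exact indicator_of_mem hw _
    have e2 : YY D u ε =ᶠ[𝓝 z] fun z => hf ε (u z) * (uy u z / W u z) := by
      filter_upwards [hD'] with w hw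
      exact indicator_of_mem hw _
    have d0 : DifferentiableAt ℝ u z :=
      (h.smooth.contDiffAt hD').differentiableAt (by norm_num)
    have d1 : DifferentiableAt ℝ (fun z => ux u z / W u z) z :=
      ((qx_contDiffOn hD h).contDiffAt hD').differentiableAt (by norm_num)
    have d2 : DifferentiableAt ℝ (fun z => uy u z / W u z) z :=
      ((qy_contDiffOn hD h).contDiffAt hD').differentiableAt (by norm_num)
    have d3 : HasFDerivAt (fun z => hf ε (u z)) ((pf ε (u z) ^ 2) • fderiv ℝ u z) z :=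
      (hf_hasDerivAt ε (u z)).comp_hasFDerivAt z d0.hasFDerivAt
    have m1 := (d3.mul d1.hasFDerivAt)
    have m2 := (d3.mul d2.hasFDerivAt)
    rw [e1.fderiv_eq, e2.fderiv_eq]
    have f1 : fderiv ℝ (fun z => hf ε (u z) * (ux u z / W u z)) z =
        hf ε (u z) • fderiv ℝ (fun z => ux u z / W u z) z +
          (ux u z / W u z) • ((pf ε (u z) ^ 2) • fderiv ℝ u z) := m1.fderiv
    have f2 : fderiv ℝ (fun z => hf ε (u z) * (uy u z / W u z)) z =
        hf ε (u z) • fderiv ℝ (fun z => uy u z / W u z) z +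
          (uy u z / W u z) • ((pf ε (u z) ^ 2) • fderiv ℝ u z) := m2.fderiv
    rw [f1, f2]
    have hm := h.mse z hz
    simp only [_root_.add_apply, _root_.smul_apply, smul_eq_mul]
    unfold ee
    rw [indicator_of_mem hz]
    have hx : fderiv ℝ u z 1 = ux u z := rfl
    have hy : fderiv ℝ u z Complex.I = uy u z := rfl
    rw [hx, hy]
    have : hf ε (u z) * (fderiv ℝ (fun w => ux u w / W u w) z 1
        + fderiv ℝ (fun w => uy u w / W u w) z Complex.I) = 0 := by rw [hm, mul_zero]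
    linear_combination this
  · have e1 : XX D u ε =ᶠ[𝓝 z] fun _ => 0 := cut_zero h hε _ (fun _ ht => hf_zero hε ht) _ hz
    have e2 : YY D u ε =ᶠ[𝓝 z] fun _ => 0 := cut_zero h hε _ (fun _ ht => hf_zero hε ht) _ hz
    rw [e1.fderiv_eq, e2.fderiv_eq]
    unfold ee
    rw [indicator_of_notMem hz]
    simp

theorem GG_fderiv (hD : IsOpen D) (h : IsSolution D u) {ε : ℝ} (hε : 0 < ε) (z v : ℂ) :
    fderiv ℝ (GG D u ε) z v = D.indicator (fun z => pf ε (u z) * fderiv ℝ u z v) z := by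
  by_cases hz : z ∈ D
  · have hD' : D ∈ 𝓝 z := hD.mem_nhds hz
    have e1 : GG D u ε =ᶠ[𝓝 z] fun z => gf ε (u z) := by
      filter_upwards [hD'] with w hw
      unfold GG
      rw [indicator_of_mem hw, mul_one]
    have d0 : DifferentiableAt ℝ u z :=
      (h.smooth.contDiffAt hD').differentiableAt (by norm_num)
    have d3 : HasFDerivAt (fun z => gf ε (u z)) ((pf ε (u z)) • fderiv ℝ u z) z :=
      (gf_hasDerivAt ε (u z)).comp_hasFDerivAt z d0.hasFDerivAt
    rw [e1.fderiv_eq, d3.fderiv, indicator_of_mem hz]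
    rfl
  · have e1 : GG D u ε =ᶠ[𝓝 z] fun _ => 0 := cut_zero h hε _ (fun _ ht => gf_zero hε ht) _ hz
    rw [e1.fderiv_eq, indicator_of_notMem hz]
    simp

/-- the truncated flux through the circle of radius `r` -/
def FF (D : Set ℂ) (u : ℂ → ℝ) (ε r : ℝ) : ℝ :=
  ∫ θ in (0 : ℝ)..(2 * π), r * (XX D u ε (pt r θ) * Real.cos θ + YY D u ε (pt r θ) * Real.sin θ)

/-- its derivative -/
def aa (D : Set ℂ) (u : ℂ → ℝ) (ε r : ℝ) : ℝ :=
  ∫ θ in (0 : ℝ)..(2 * π), r * ee D u ε (pt r θ)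

theorem FF_hasDerivAt (hD : IsOpen D) (h : IsSolution D u) {ε : ℝ} (hε : 0 < ε) (r : ℝ) :
    HasDerivAt (FF D u ε) (aa D u ε r) r := by
  have := flux_deriv (XX D u ε) (YY D u ε) (XX_contDiff hD h hε) (YY_contDiff hD h hε) r
  refine this.congr_deriv ?_
  unfold aa
  congr 1
  funext θ
  rw [div_eq hD h hε]

theorem FF_zero (ε : ℝ) : FF D u ε 0 = 0 := by
  unfold FF
  simp

end

end Pool.Agent.T6.H57.MG
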