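import Pool.Agent.T6.H57.MG.Flux

/-!
# Growth of minimal graphs
-/

set_option autoImplicit false

open MeasureTheory Set Filter Topology Real

namespace Pool.Agent.T6.H57.MG

noncomputable section

variable {D : Set ℂ} {u : ℂ → ℝ}

theorem pt_per (r θ : ℝ) : pt r (θ + 2 * π) = pt r θ := by
  apply Complex.ext <;> simp [pt]

theorem norm_pt (r θ : ℝ) : ‖pt r θ‖ = |r| := by
  have h : ‖pt r θ‖ ^ 2 = |r| ^ 2 := by
    rw [Complex.sq_norm, Complex.normSq_apply, sq_abs]
    simp only [pt]
    nlinarith [Real.sin_sq_add_cos_sq θ]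
  exact (pow_left_inj₀ (norm_nonneg _) (abs_nonneg _) two_ne_zero).1 h

theorem pt_arg (z : ℂ) : pt ‖z‖ z.arg = z := by
  apply Complex.ext
  · simp [pt, Complex.norm_mul_cos_arg]
  · simp [pt, Complex.norm_mul_sin_arg]

theorem pt_θ_cont (r : ℝ) : Continuous (fun θ => pt r θ) :=
  pt_cont.comp (continuous_const.prodMk continuous_id)

theorem FF_shift (ε r t : ℝ) : FF D u ε r = ∫ θ in t..(t + 2 * π),
    r * (XX D u ε (pt r θ) * Real.cos θ + YY D u ε (pt r θ) * Real.sin θ) := by
  have hp : Function.Periodic (fun θ => r * (XX D u ε (pt r θ) * Real.cos θ +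
      YY D u ε (pt r θ) * Real.sin θ)) (2 * π) := by
    intro θ
    simp only [pt_per, Real.cos_add_two_pi, Real.sin_add_two_pi]
  have := hp.intervalIntegral_add_eq 0 t
  rw [zero_add] at this
  exact this

theorem aa_shift (ε r t : ℝ) : aa D u ε r = ∫ θ in t..(t + 2 * π), r * ee D u ε (pt r θ) := by
  have hp : Function.Periodic (fun θ => r * ee D u ε (pt r θ)) (2 * π) := by
    intro θ
    simp only [pt_per]
  have := hp.intervalIntegral_add_eq 0 t
  rw [zero_add] at this
  exact this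

theorem aa_nonneg (ε : ℝ) {r : ℝ} (hr : 0 ≤ r) : 0 ≤ aa D u ε r :=
  intervalIntegral.integral_nonneg (by positivity) fun θ _ => mul_nonneg hr (ee_nonneg ε _)

theorem ww_eq {ε : ℝ} (hε : 0 < ε) {z : ℂ} (hz : z ∈ D) (hp : pf ε (u z) ≠ 0) :
    ww D u (ε / 2) z = W u z := by
  have h1 : ε < u z := by
    by_contra hc
    exact hp (pf_zero hε (not_lt.1 hc))
  unfold ww
  rw [indicator_of_mem hz, pf_one hε h1.le]
  ring

/-- the derivative of the truncated function along the circle -/
def ft (D : Set ℂ) (u : ℂ → ℝ) (ε r θ : ℝ) : ℝ :=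
  r * (Real.cos θ * fderiv ℝ (GG D u ε) (pt r θ) Complex.I -
    Real.sin θ * fderiv ℝ (GG D u ε) (pt r θ) 1)

/-- the weighted normal derivative -/
def yt (D : Set ℂ) (u : ℂ → ℝ) (ε r θ : ℝ) : ℝ :=
  r * |fderiv ℝ (GG D u ε) (pt r θ) 1 * Real.cos θ +
    fderiv ℝ (GG D u ε) (pt r θ) Complex.I * Real.sin θ| / ww D u (ε / 2) (pt r θ)

theorem pw1 (hD : IsOpen D) (h : IsSolution D u) {ε : ℝ} (hε : 0 < ε) {r : ℝ} (hr : 0 < r)
    (θ : ℝ) : r * (XX D u ε (pt r θ) * Real.cos θ + YY D u ε (pt r θ) * Real.sin θ) ≤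
      GG D u ε (pt r θ) * yt D u ε r θ := by
  unfold yt XX YY
  rw [GG_fderiv hD h hε, GG_fderiv hD h hε]
  set z := pt r θ
  by_cases hz : z ∈ D
  · rw [indicator_of_mem hz, indicator_of_mem hz, indicator_of_mem hz, indicator_of_mem hz]
    have hu := (h.pos z hz).le
    have hh := hf_le hε (u z) hu
    have hh0 := hf_nonneg ε (u z) hu
    by_cases hp : pf ε (u z) = 0
    · have : hf ε (u z) = 0 := le_antisymm (by rw [hp, mul_zero] at hh; exact hh) hh0
      rw [this, hp]
      simp
    · rw [ww_eq hε hz hp]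
      unfold GG
      rw [indicator_of_mem hz]
      have hW := one_le_W (u := u) z
      have hx : fderiv ℝ u z 1 = ux u z := rfl
      have hy : fderiv ℝ u z Complex.I = uy u z := rfl
      rw [hx, hy]
      have hp0 := pf_nonneg ε (u z)
      have e1 : pf ε (u z) * ux u z * Real.cos θ + pf ε (u z) * uy u z * Real.sin θ =
          pf ε (u z) * (ux u z * Real.cos θ + uy u z * Real.sin θ) := by ring
      rw [e1, abs_mul, abs_of_nonneg hp0]
      set n := ux u z * Real.cos θ + uy u z * Real.sin θ with hn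
      have e2 : r * (hf ε (u z) * (ux u z / W u z) * Real.cos θ +
          hf ε (u z) * (uy u z / W u z) * Real.sin θ) = r * (hf ε (u z) * n) / W u z := by
        rw [hn]
        ring
      have e3 : gf ε (u z) * 1 * (r * (pf ε (u z) * |n|) / W u z) =
          r * ((gf ε (u z) * pf ε (u z)) * |n|) / W u z := by ring
      rw [e2, e3]
      apply div_le_div_of_nonneg_right _ (by linarith)
      apply mul_le_mul_of_nonneg_left _ hr.le
      calc hf ε (u z) * n ≤ hf ε (u z) * |n| := mul_le_mul_of_nonneg_left (le_abs_self _) hh0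
        _ ≤ (gf ε (u z) * pf ε (u z)) * |n| := mul_le_mul_of_nonneg_right hh (abs_nonneg _)
  · rw [indicator_of_notMem hz, indicator_of_notMem hz, indicator_of_notMem hz,
      indicator_of_notMem hz]
    simp

theorem pw2 (hD : IsOpen D) (h : IsSolution D u) {ε : ℝ} (hε : 0 < ε) {r : ℝ} (hr : 0 < r)
    (θ : ℝ) : (ft D u ε r θ ^ 2 + yt D u ε r θ ^ 2) / (r * ww D u (ε / 2) (pt r θ)) ≤
      r * ee D u ε (pt r θ) := by
  unfold ft yt
  rw [GG_fderiv hD h hε, GG_fderiv hD h hε]
  set z := pt r θ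
  by_cases hz : z ∈ D
  · unfold ee
    rw [indicator_of_mem hz, indicator_of_mem hz, indicator_of_mem hz]
    by_cases hp : pf ε (u z) = 0
    · rw [hp]
      simp
    · rw [ww_eq hε hz hp]
      have hW := one_le_W (u := u) z
      have hx : fderiv ℝ u z 1 = ux u z := rfl
      have hy : fderiv ℝ u z Complex.I = uy u z := rfl
      rw [hx, hy]
      have hsc := Real.sin_sq_add_cos_sq θ
      set p := pf ε (u z)
      set a := ux u z
      set b := uy u z
      set w := W u z
      set c := Real.cos θ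
      set s := Real.sin θ
      have e1 : p * a * c + p * b * s = p * (a * c + b * s) := by ring
      rw [e1, div_pow, mul_pow r |p * (a * c + b * s)|, sq_abs]
      have hw : 0 < w := by linarith
      have h2 : (a * c + b * s) ^ 2 / w ^ 2 ≤ (a * c + b * s) ^ 2 := by
        apply div_le_self (sq_nonneg _)
        nlinarith
      have h3 : (a * c + b * s) ^ 2 + (c * b - s * a) ^ 2 = a ^ 2 + b ^ 2 := by
        have : (a * c + b * s) ^ 2 + (c * b - s * a) ^ 2 = (a ^ 2 + b ^ 2) * (s ^ 2 + c ^ 2) := by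
          ring
        rw [this, hsc, mul_one]
      have e2 : ((r * (c * (p * b) - s * (p * a))) ^ 2 + r ^ 2 * (p * (a * c + b * s)) ^ 2 / w ^ 2)
          / (r * w) = r * p ^ 2 * ((c * b - s * a) ^ 2 + (a * c + b * s) ^ 2 / w ^ 2) / w := by
        field_simp
      have e3 : r * (p ^ 2 * ((a ^ 2 + b ^ 2) / w)) = r * p ^ 2 * (a ^ 2 + b ^ 2) / w := by ring
      rw [e2, e3]
      apply div_le_div_of_nonneg_right _ hw.le
      apply mul_le_mul_of_nonneg_left _ (by positivity)
      linarith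
  · rw [indicator_of_notMem hz, indicator_of_notMem hz]
    have : 0 ≤ r * ee D u ε z := mul_nonneg hr.le (ee_nonneg ε z)
    simpa using this

/-- the key inequality -/
theorem key (hD : IsOpen D) (h : IsSolution D u) {ε : ℝ} (hε : 0 < ε) {r : ℝ} (hr : 0 < r)
    {t : ℝ} (ht : pt r t ∉ D) :
    FF D u ε r ≤ (r + aa D u (ε / 2) r / (2 * π)) * aa D u ε r := by
  have hpi := Real.pi_pos
  have hε2 : 0 < ε / 2 := by positivity
  have hG := GG_contDiff hD h hε
  have hwc : Continuous (fun θ => r * ww D u (ε / 2) (pt r θ)) :=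
    continuous_const.mul ((ww_cont hD h hε2).comp (pt_θ_cont r))
  have hwp : ∀ θ, 0 < r * ww D u (ε / 2) (pt r θ) := fun θ =>
    mul_pos hr (zero_lt_one.trans_le (one_le_ww _ _))
  have g1 := (fderiv_cont _ hG 1).comp (pt_θ_cont r)
  have gI := (fderiv_cont _ hG Complex.I).comp (pt_θ_cont r)
  have hfc : Continuous (ft D u ε r) :=
    continuous_const.mul ((Real.continuous_cos.mul gI).sub (Real.continuous_sin.mul g1))
  have hyc : Continuous (yt D u ε r) :=
    (continuous_const.mul ((g1.mul Real.continuous_cos).add (gI.mul Real.continuous_sin)).abs).div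
      ((ww_cont hD h hε2).comp (pt_θ_cont r))
      (fun θ => (zero_lt_one.trans_le (one_le_ww _ _)).ne')
  have hG0 : GG D u ε (pt r t) = 0 := indicator_of_notMem ht _
  have hGc : Continuous (fun θ => GG D u ε (pt r θ)) := hG.continuous.comp (pt_θ_cont r)
  have hlt : t < t + 2 * π := by linarith
  have h1 := wirt_mul (fun θ => GG D u ε (pt r θ)) (ft D u ε r)
    (fun θ => r * ww D u (ε / 2) (pt r θ)) (yt D u ε r)
    (fun θ => hasDerivAt_comp_pt_θ _ hG r θ) hfc hwc hwp hyc t (t + 2 * π) hlt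
    hG0 (by show GG D u ε (pt r (t + 2 * π)) = 0; rw [pt_per]; exact hG0)
  have hXc : Continuous (fun θ =>
      r * (XX D u ε (pt r θ) * Real.cos θ + YY D u ε (pt r θ) * Real.sin θ)) :=
    continuous_const.mul ((((XX_contDiff hD h hε).continuous.comp (pt_θ_cont r)).mul
      Real.continuous_cos).add (((YY_contDiff hD h hε).continuous.comp (pt_θ_cont r)).mul
      Real.continuous_sin))
  have h2 : FF D u ε r ≤ ∫ θ in t..(t + 2 * π), GG D u ε (pt r θ) * yt D u ε r θ := by
    rw [FF_shift ε r t]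
    exact intervalIntegral.integral_mono hlt.le (hXc.intervalIntegrable _ _)
      ((hGc.mul hyc).intervalIntegrable _ _) (fun θ => pw1 hD h hε hr θ)
  have hec : ∀ δ, 0 < δ → Continuous (fun θ => r * ee D u δ (pt r θ)) := fun δ hδ =>
    continuous_const.mul ((ee_cont hD h hδ).comp (pt_θ_cont r))
  have h3 : ∫ θ in t..(t + 2 * π), (ft D u ε r θ ^ 2 + yt D u ε r θ ^ 2) /
      (r * ww D u (ε / 2) (pt r θ)) ≤ aa D u ε r := by
    rw [aa_shift ε r t]
    apply intervalIntegral.integral_mono hlt.le _ ((hec ε hε).intervalIntegrable _ _)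
      (fun θ => pw2 hD h hε hr θ)
    exact (((hfc.pow 2).add (hyc.pow 2)).div hwc (fun θ => (hwp θ).ne')).intervalIntegrable _ _
  have h4 : ∫ θ in t..(t + 2 * π), r * ww D u (ε / 2) (pt r θ) ≤
      2 * π * r + aa D u (ε / 2) r := by
    rw [aa_shift (ε / 2) r t]
    have h5 : ∫ θ in t..(t + 2 * π), r * ww D u (ε / 2) (pt r θ) ≤
        ∫ θ in t..(t + 2 * π), (r + r * ee D u (ε / 2) (pt r θ)) := by
      apply intervalIntegral.integral_mono hlt.le (hwc.intervalIntegrable _ _)
        ((continuous_const.add (hec _ hε2)).intervalIntegrable _ _)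
      intro θ
      have := mul_le_mul_of_nonneg_left (ww_le (D := D) (u := u) (ε / 2) (pt r θ)) hr.le
      show r * ww D u (ε / 2) (pt r θ) ≤ r + r * ee D u (ε / 2) (pt r θ)
      linarith
    rw [intervalIntegral.integral_add intervalIntegrable_const
      ((hec _ hε2).intervalIntegrable _ _), intervalIntegral.integral_const] at h5
    simpa using h5
  have ha := aa_nonneg (D := D) (u := u) ε hr.le
  have h6 : 0 ≤ (∫ θ in t..(t + 2 * π), r * ww D u (ε / 2) (pt r θ)) / (2 * π) := by
    apply div_nonneg _ (by positivity)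
    exact intervalIntegral.integral_nonneg hlt.le (fun θ _ => (hwp θ).le)
  calc FF D u ε r ≤ _ := h2
    _ ≤ _ := h1
    _ ≤ (∫ θ in t..(t + 2 * π), r * ww D u (ε / 2) (pt r θ)) / (2 * π) * aa D u ε r :=
        mul_le_mul_of_nonneg_left h3 h6
    _ ≤ (2 * π * r + aa D u (ε / 2) r) / (2 * π) * aa D u ε r := by
        apply mul_le_mul_of_nonneg_right _ ha
        exact div_le_div_of_nonneg_right h4 (by positivity)
    _ = (r + aa D u (ε / 2) r / (2 * π)) * aa D u ε r := by
        field_simp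

/-- truncated energies increase when the level decreases -/
theorem ee_half {ε : ℝ} (hε : 0 < ε) (z : ℂ) : ee D u ε z ≤ ee D u (ε / 2) z := by
  unfold ee
  by_cases hz : z ∈ D
  · rw [indicator_of_mem hz, indicator_of_mem hz]
    have hW := one_le_W (u := u) z
    apply mul_le_mul_of_nonneg_right _ (by positivity)
    exact pow_le_pow_left₀ (pf_nonneg _ _) (pf_half hε _) 2
  · rw [indicator_of_notMem hz, indicator_of_notMem hz]

theorem aa_half (hD : IsOpen D) (h : IsSolution D u) {ε : ℝ} (hε : 0 < ε) {r : ℝ} (hr : 0 ≤ r) :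
    aa D u ε r ≤ aa D u (ε / 2) r := by
  have hec : ∀ δ, 0 < δ → Continuous (fun θ => r * ee D u δ (pt r θ)) := fun δ hδ =>
    continuous_const.mul ((ee_cont hD h hδ).comp (pt_θ_cont r))
  exact intervalIntegral.integral_mono (by positivity) ((hec ε hε).intervalIntegrable _ _)
    ((hec _ (by positivity)).intervalIntegrable _ _)
    (fun θ => mul_le_mul_of_nonneg_left (ee_half hε _) hr)

/-- growth of a function with derivative at least `c` on an interval -/
theorem grow {f f' : ℝ → ℝ} (hf : ∀ x, HasDerivAt f (f' x) x) {a b c : ℝ}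
    (h : ∀ x ∈ Ioo a b, c ≤ f' x) {s : ℝ} (h1 : a ≤ s) (h2 : s ≤ b) :
    f a + c * (s - a) ≤ f s := by
  rcases eq_or_lt_of_le h1 with h3 | h3
  · rw [h3]; simp
  · obtain ⟨x, hx, hx'⟩ := exists_hasDerivAt_eq_slope f f' h3
      (fun y _ => (hf y).continuousAt.continuousWithinAt) (fun y _ => hf y)
    have h4 := h x ⟨hx.1, hx.2.trans_le h2⟩
    rw [hx', le_div_iff₀ (by linarith)] at h4
    linarith

theorem FF_mono (hD : IsOpen D) (h : IsSolution D u) {ε : ℝ} (hε : 0 < ε) {r s : ℝ}
    (hr : 0 ≤ r) (hrs : r ≤ s) : FF D u ε r ≤ FF D u ε s := by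
  have := grow (FF_hasDerivAt hD h hε) (a := r) (b := s) (c := 0)
    (fun x hx => aa_nonneg ε (hr.trans hx.1.le)) hrs le_rfl
  simpa using this

theorem FF_nonneg (hD : IsOpen D) (h : IsSolution D u) {ε : ℝ} (hε : 0 < ε) {r : ℝ}
    (hr : 0 ≤ r) : 0 ≤ FF D u ε r := by
  have := FF_mono hD h hε le_rfl hr
  rwa [FF_zero] at this

theorem FF_half (hD : IsOpen D) (h : IsSolution D u) {ε : ℝ} (hε : 0 < ε) {r : ℝ}
    (hr : 0 ≤ r) : FF D u ε r ≤ FF D u (ε / 2) r := by
  have hd : ∀ x, HasDerivAt (fun r => FF D u (ε / 2) r - FF D u ε r)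
      (aa D u (ε / 2) x - aa D u ε x) x := fun x =>
    (FF_hasDerivAt hD h (by positivity) x).sub (FF_hasDerivAt hD h hε x)
  have := grow hd (a := 0) (b := r) (c := 0)
    (fun x hx => sub_nonneg.2 (aa_half hD h hε hx.1.le)) hr le_rfl
  simp only [FF_zero] at this
  linarith

/-- the Caccioppoli type inequality in one variable -/
theorem cacc (hD : IsOpen D) (h : IsSolution D u) {ε : ℝ} (hε : 0 < ε) {r : ℝ} (hr : 0 < r)
    {m : ℝ} (hm : ∀ θ, ut D u (pt r θ) ≤ m) {lam : ℝ} (hl : 0 < lam) :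
    FF D u ε r ≤ lam / 2 * (2 * π * r * m ^ 2) + 1 / (2 * lam) * aa D u ε r := by
  have hpi := Real.pi_pos
  have hXc : Continuous (fun θ =>
      r * (XX D u ε (pt r θ) * Real.cos θ + YY D u ε (pt r θ) * Real.sin θ)) :=
    continuous_const.mul ((((XX_contDiff hD h hε).continuous.comp (pt_θ_cont r)).mul
      Real.continuous_cos).add (((YY_contDiff hD h hε).continuous.comp (pt_θ_cont r)).mul
      Real.continuous_sin))
  have hec : Continuous (fun θ => r * ee D u ε (pt r θ)) :=
    continuous_const.mul ((ee_cont hD h hε).comp (pt_θ_cont r))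
  have hec' : Continuous (fun θ => 1 / (2 * lam) * (r * ee D u ε (pt r θ))) :=
    continuous_const.mul hec
  have h1 : FF D u ε r ≤ ∫ θ in (0 : ℝ)..(2 * π), (lam / 2 * (r * m ^ 2) +
      1 / (2 * lam) * (r * ee D u ε (pt r θ))) := by
    apply intervalIntegral.integral_mono (by positivity) (hXc.intervalIntegrable _ _)
      ((continuous_const.add hec').intervalIntegrable _ _)
    intro θ
    show r * (XX D u ε (pt r θ) * Real.cos θ + YY D u ε (pt r θ) * Real.sin θ) ≤
      lam / 2 * (r * m ^ 2) + 1 / (2 * lam) * (r * ee D u ε (pt r θ))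
    have hmθ := hm θ
    unfold XX YY ee
    set z := pt r θ
    by_cases hz : z ∈ D
    · rw [indicator_of_mem hz, indicator_of_mem hz, indicator_of_mem hz]
      rw [ut_mem hz] at hmθ
      have hu := (h.pos z hz).le
      have hh := hf_le hε (u z) hu
      have hh0 := hf_nonneg ε (u z) hu
      have hg0 := gf_nonneg ε (u z) hu
      have hg := (gf_le ε (u z) hu).trans hmθ
      have hp0 := pf_nonneg ε (u z)
      have hW := one_le_W (u := u) z
      have hsc := Real.sin_sq_add_cos_sq θ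
      set p := pf ε (u z)
      set g := gf ε (u z)
      set k := hf ε (u z)
      set a := ux u z
      set b := uy u z
      set w := W u z
      set c := Real.cos θ
      set s := Real.sin θ
      have hw : 0 < w := by linarith
      have e1 : r * (k * (a / w) * c + k * (b / w) * s) = r * (k * (a * c + b * s) / w) := by ring
      have e2 : lam / 2 * (r * m ^ 2) + 1 / (2 * lam) * (r * (p ^ 2 * ((a ^ 2 + b ^ 2) / w))) =
          r * (lam / 2 * m ^ 2 + 1 / (2 * lam) * (p ^ 2 * ((a ^ 2 + b ^ 2) / w))) := by ring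
      rw [e1, e2]
      apply mul_le_mul_of_nonneg_left _ hr.le
      have h3 : (a * c + b * s) ^ 2 ≤ a ^ 2 + b ^ 2 := by
        have : (a * c + b * s) ^ 2 + (c * b - s * a) ^ 2 = (a ^ 2 + b ^ 2) * (s ^ 2 + c ^ 2) := by
          ring
        rw [hsc, mul_one] at this
        nlinarith [sq_nonneg (c * b - s * a)]
      set n := a * c + b * s
      have h4 : k * n / w ≤ g * (p * |n| / w) := by
        have h5 : k * n ≤ (g * p) * |n| := (mul_le_mul_of_nonneg_left (le_abs_self _) hh0).trans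
          (mul_le_mul_of_nonneg_right hh (abs_nonneg _))
        have := div_le_div_of_nonneg_right h5 hw.le
        calc k * n / w ≤ _ := this
          _ = g * (p * |n| / w) := by ring
      have h6 : g * (p * |n| / w) ≤ lam / 2 * g ^ 2 + 1 / (2 * lam) * (p * |n| / w) ^ 2 := by
        have h7 : lam / 2 * g ^ 2 + 1 / (2 * lam) * (p * |n| / w) ^ 2 - g * (p * |n| / w) =
            (lam * g - p * |n| / w) ^ 2 / (2 * lam) := by
          field_simp
          ring
        have : 0 ≤ (lam * g - p * |n| / w) ^ 2 / (2 * lam) := by positivity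
        linarith
      have h8 : lam / 2 * g ^ 2 ≤ lam / 2 * m ^ 2 := by
        apply mul_le_mul_of_nonneg_left _ (by positivity)
        exact pow_le_pow_left₀ hg0 hg 2
      have h9 : (p * |n| / w) ^ 2 ≤ p ^ 2 * ((a ^ 2 + b ^ 2) / w) := by
        rw [div_pow, mul_pow, sq_abs, mul_div_assoc]
        apply mul_le_mul_of_nonneg_left _ (sq_nonneg p)
        apply div_le_div₀ (by positivity) h3 hw
        nlinarith
      have h10 := mul_le_mul_of_nonneg_left h9 (show 0 ≤ 1 / (2 * lam) by positivity)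
      linarith
    · rw [indicator_of_notMem hz, indicator_of_notMem hz, indicator_of_notMem hz]
      have : 0 ≤ lam / 2 * (r * m ^ 2) := by positivity
      simpa using this
  rw [intervalIntegral.integral_add intervalIntegrable_const (hec'.intervalIntegrable _ _),
    intervalIntegral.integral_const, intervalIntegral.integral_const_mul, sub_zero,
    smul_eq_mul] at h1
  calc FF D u ε r ≤ _ := h1
    _ = _ := by
      unfold aa
      ring

theorem cacc_sq (hD : IsOpen D) (h : IsSolution D u) {ε : ℝ} (hε : 0 < ε) {r : ℝ} (hr : 0 < r)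
    {m : ℝ} (hm : ∀ θ, ut D u (pt r θ) ≤ m) :
    FF D u ε r ^ 2 ≤ 2 * π * r * m ^ 2 * aa D u ε r := by
  have hpi := Real.pi_pos
  have hm0 : 0 ≤ m := (ut_nonneg h (pt r 0)).trans (hm 0)
  have hF := FF_nonneg hD h hε hr.le
  have ha := aa_nonneg (D := D) (u := u) ε hr.le
  rcases eq_or_lt_of_le hF with h0 | h0
  · rw [← h0, zero_pow two_ne_zero]
    exact mul_nonneg (by positivity) ha
  rcases eq_or_lt_of_le hm0 with h1 | h1
  · exfalso
    -- m = 0: let lam tend to infinity
    have h2 := cacc hD h hε hr hm (lam := aa D u ε r / FF D u ε r + 1) (by positivity)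
    rw [← h1] at h2
    have h3 : (0 : ℝ) < aa D u ε r / FF D u ε r + 1 := by positivity
    have h4 : 1 / (2 * (aa D u ε r / FF D u ε r + 1)) * aa D u ε r =
        aa D u ε r * FF D u ε r / (2 * (aa D u ε r + FF D u ε r)) := by
      have : 0 < aa D u ε r + FF D u ε r := by positivity
      field_simp
    rw [h4] at h2
    have h5 : aa D u ε r * FF D u ε r / (2 * (aa D u ε r + FF D u ε r)) < FF D u ε r := by
      rw [div_lt_iff₀ (by positivity)]
      nlinarith
    simp only [ne_eq, OfNat.ofNat_ne_zero, not_false_eq_true, zero_pow, mul_zero, zero_add] at h2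
    linarith
  · have h2 := cacc hD h hε hr hm (lam := FF D u ε r / (2 * π * r * m ^ 2)) (by positivity)
    have h3 : FF D u ε r / (2 * π * r * m ^ 2) / 2 * (2 * π * r * m ^ 2) = FF D u ε r / 2 := by
      field_simp
    have h4 : 1 / (2 * (FF D u ε r / (2 * π * r * m ^ 2))) * aa D u ε r =
        (2 * π * r * m ^ 2 * aa D u ε r) / (2 * FF D u ε r) := by
      field_simp
    rw [h3, h4] at h2
    have h5 : FF D u ε r / 2 ≤ (2 * π * r * m ^ 2 * aa D u ε r) / (2 * FF D u ε r) := by linarith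
    rw [le_div_iff₀ (by positivity)] at h5
    nlinarith

/-- if the flux vanishes on a circle, the truncated function is constant in the disc -/
theorem const_of_flux (hD : IsOpen D) (h : IsSolution D u) {ε : ℝ} (hε : 0 < ε) {r : ℝ}
    (hr : 0 < r) (hF : FF D u ε r ≤ 0) (s θ : ℝ) (hs0 : 0 ≤ s) (hs : s ≤ r) :
    GG D u ε (pt s θ) = GG D u ε 0 := by
  have hpi := Real.pi_pos
  have hp0 : ∀ θ, pt 0 θ = 0 := fun θ => by apply Complex.ext <;> simp [pt]
  -- the flux vanishes
  have h1 : ∀ x ∈ Ioo 0 r, FF D u ε x = 0 := fun x hx =>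
    le_antisymm ((FF_mono hD h hε hx.1.le hx.2.le).trans hF) (FF_nonneg hD h hε hx.1.le)
  have h2 : ∀ x ∈ Ioo 0 r, aa D u ε x = 0 := by
    intro x hx
    have e1 : FF D u ε =ᶠ[𝓝 x] fun _ => 0 := by
      filter_upwards [Ioo_mem_nhds hx.1 hx.2] with y hy using h1 y hy
    have e2 := e1.deriv_eq
    rw [(FF_hasDerivAt hD h hε x).deriv, deriv_const] at e2
    exact e2
  have h3 : ∀ x ∈ Ioo 0 r, ∀ θ, ee D u ε (pt x θ) = 0 := by
    intro x hx θ
    by_contra hc
    have hpos : 0 < ee D u ε (pt x θ) := lt_of_le_of_ne (ee_nonneg _ _) (Ne.symm hc)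
    have := intervalIntegral.integral_pos (a := θ) (b := θ + 2 * π)
      (f := fun θ => x * ee D u ε (pt x θ)) (by linarith)
      (continuous_const.mul ((ee_cont hD h hε).comp (pt_θ_cont x))).continuousOn
      (fun y _ => mul_nonneg hx.1.le (ee_nonneg _ _))
      ⟨θ, ⟨le_rfl, by linarith⟩, mul_pos hx.1 hpos⟩
    rw [← aa_shift, h2 x hx] at this
    exact lt_irrefl _ this
  have h4 : ∀ z, ee D u ε z = 0 → fderiv ℝ (GG D u ε) z 1 = 0 ∧
      fderiv ℝ (GG D u ε) z Complex.I = 0 := by
    intro z hz0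
    rw [GG_fderiv hD h hε, GG_fderiv hD h hε]
    unfold ee at hz0
    by_cases hz : z ∈ D
    · rw [indicator_of_mem hz] at hz0 ⊢
      rw [indicator_of_mem hz]
      have hW := one_le_W (u := u) z
      have hx : fderiv ℝ u z 1 = ux u z := rfl
      have hy : fderiv ℝ u z Complex.I = uy u z := rfl
      rw [hx, hy]
      rcases mul_eq_zero.1 hz0 with h5 | h5
      · have : pf ε (u z) = 0 := by simpa using h5
        rw [this]
        simp
      · rw [div_eq_zero_iff] at h5
        rcases h5 with h5 | h5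
        · have h6 : ux u z = 0 := by nlinarith [sq_nonneg (ux u z), sq_nonneg (uy u z)]
          have h7 : uy u z = 0 := by nlinarith [sq_nonneg (ux u z), sq_nonneg (uy u z)]
          rw [h6, h7]
          simp
        · linarith
    · rw [indicator_of_notMem hz, indicator_of_notMem hz]
      exact ⟨rfl, rfl⟩
  rcases eq_or_lt_of_le hs0 with h5 | h5
  · rw [← h5, hp0]
  · have hG := GG_contDiff hD h hε
    obtain ⟨x, hx, hx'⟩ := exists_hasDerivAt_eq_slope (fun s => GG D u ε (pt s θ))
      (fun s => Real.cos θ * fderiv ℝ (GG D u ε) (pt s θ) 1 +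
        Real.sin θ * fderiv ℝ (GG D u ε) (pt s θ) Complex.I) h5
      (fun y _ => (hasDerivAt_comp_pt_r _ hG y θ).continuousAt.continuousWithinAt)
      (fun y _ => hasDerivAt_comp_pt_r _ hG y θ)
    obtain ⟨h6, h7⟩ := h4 _ (h3 x ⟨hx.1, hx.2.trans_le hs⟩ θ)
    rw [h6, h7, mul_zero, mul_zero, add_zero, hp0, eq_comm, div_eq_zero_iff] at hx'
    rcases hx' with h8 | h8
    · linarith
    · linarith

/-- the maximum principle -/
theorem max_princ (hD : IsOpen D) (h : IsSolution D u) {m : ℝ} {r : ℝ}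
    (hr : 0 < r) (hm : ∀ θ, ut D u (pt r θ) ≤ m) {s : ℝ} (hs0 : 0 ≤ s) (hs : s ≤ r) (θ : ℝ) :
    ut D u (pt s θ) ≤ m := by
  by_contra hc
  push Not at hc
  have hm0 : 0 ≤ m := (ut_nonneg h (pt r 0)).trans (hm 0)
  obtain ⟨ε, h1, h2⟩ := exists_between hc
  have hε : 0 < ε := hm0.trans_lt h1
  have hG0 : ∀ z, ut D u z ≤ ε → GG D u ε z = 0 := by
    intro z hz
    unfold GG
    by_cases hzD : z ∈ D
    · rw [indicator_of_mem hzD]
      rw [ut_mem hzD] at hz
      rw [gf_zero hε hz, zero_mul]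
    · rw [indicator_of_notMem hzD]
  have hX0 : ∀ z, ut D u z ≤ ε → XX D u ε z = 0 ∧ YY D u ε z = 0 := by
    intro z hz
    unfold XX YY
    by_cases hzD : z ∈ D
    · rw [indicator_of_mem hzD, indicator_of_mem hzD]
      rw [ut_mem hzD] at hz
      rw [hf_zero hε hz, zero_mul, zero_mul]
      exact ⟨rfl, rfl⟩
    · rw [indicator_of_notMem hzD, indicator_of_notMem hzD]
      exact ⟨rfl, rfl⟩
  have hF : FF D u ε r = 0 := by
    unfold FF
    have : ∀ θ, r * (XX D u ε (pt r θ) * Real.cos θ + YY D u ε (pt r θ) * Real.sin θ) = 0 := by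
      intro θ
      obtain ⟨h3, h4⟩ := hX0 _ ((hm θ).trans h1.le)
      rw [h3, h4]
      ring
    simp only [this]
    simp
  have h3 := const_of_flux hD h hε hr hF.le s θ hs0 hs
  have h4 := const_of_flux hD h hε hr hF.le r 0 hr.le le_rfl
  rw [hG0 _ ((hm 0).trans h1.le)] at h4
  rw [← h4] at h3
  by_cases hzD : pt s θ ∈ D
  · rw [ut_mem hzD] at h2
    unfold GG at h3
    rw [indicator_of_mem hzD, mul_one] at h3
    exact (gf_pos hε h2).ne' h3
  · rw [ut_not_mem hzD] at h2
    linarith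

/-- positivity of the flux -/
theorem flux_pos (hD : IsOpen D) (hne : D.Nonempty) (hne2 : (Dᶜ).Nonempty)
    (h : IsSolution D u) : ∃ ε > 0, ∃ r > 0, 0 < FF D u ε r := by
  obtain ⟨z0, hz0⟩ := hne
  obtain ⟨z1, hz1⟩ := hne2
  have hu := h.pos z0 hz0
  refine ⟨u z0 / 2, by positivity, ?_⟩
  by_contra hc
  push Not at hc
  have hG : ∀ z, GG D u (u z0 / 2) z = GG D u (u z0 / 2) 0 := by
    intro z
    have := const_of_flux hD h (show 0 < u z0 / 2 by positivity) (r := ‖z‖ + 1) (by positivity)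
      (hc _ (by positivity)) ‖z‖ z.arg (norm_nonneg _) (by linarith)
    rwa [pt_arg] at this
  have h1 := hG z0
  have h2 := hG z1
  rw [← h2] at h1
  unfold GG at h1
  rw [indicator_of_mem hz0, indicator_of_notMem hz1, mul_one] at h1
  exact (gf_pos (by positivity) (by linarith)).ne' h1

/-- the Clairaut induction -/
theorem clairaut (hD : IsOpen D) (h : IsSolution D u) {r0 : ℝ} (hr0 : 0 < r0)
    (hcirc : ∀ r, r0 ≤ r → ∃ t, pt r t ∉ D) {ε : ℝ} (hε : 0 < ε) {c δ : ℝ} (hc : 0 < c)
    (hδ : 0 < δ) (hc2 : c * r0 + c ^ 2 / (2 * π) + δ ≤ FF D u ε r0) (j : ℕ) :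
    ∀ s, r0 ≤ s → s ≤ r0 + j * (δ / c) →
      c * s + c ^ 2 / (2 * π) ≤ FF D u (ε / 2 ^ j) s := by
  have hpi := Real.pi_pos
  have hmon : ∀ j : ℕ, FF D u ε r0 ≤ FF D u (ε / 2 ^ j) r0 := by
    intro j
    induction j with
    | zero => simp
    | succ j ih =>
      refine ih.trans ?_
      have := FF_half hD h (show 0 < ε / 2 ^ j by positivity) hr0.le
      rw [div_div, ← pow_succ] at this
      exact this
  induction j with
  | zero =>
    intro s h1 h2
    have h3 : s = r0 := le_antisymm (by simpa using h2) h1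
    rw [h3]
    simp only [pow_zero, div_one]
    linarith
  | succ j ih =>
    intro s h1 h2
    have hεj : 0 < ε / 2 ^ j := by positivity
    have hεj1 : 0 < ε / 2 ^ (j + 1) := by positivity
    have hT : r0 ≤ r0 + j * (δ / c) := by
      have : 0 ≤ (j : ℝ) * (δ / c) := by positivity
      linarith
    have hder : ∀ x ∈ Ioo r0 (r0 + j * (δ / c)), c ≤ aa D u (ε / 2 ^ (j + 1)) x := by
      intro x hx
      have hx0 : 0 < x := hr0.trans hx.1
      have h3 := ih x hx.1.le hx.2.le
      obtain ⟨t, ht⟩ := hcirc x hx.1.le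
      have h4 := key hD h hεj hx0 ht
      have h5 := aa_half hD h hεj hx0.le
      rw [div_div, ← pow_succ] at h4 h5
      have h6 := aa_nonneg (D := D) (u := u) (ε / 2 ^ j) hx0.le
      have h7 := aa_nonneg (D := D) (u := u) (ε / 2 ^ (j + 1)) hx0.le
      by_contra hcon
      push Not at hcon
      set b := aa D u (ε / 2 ^ (j + 1)) x
      set a := aa D u (ε / 2 ^ j) x
      have h8 : (x + b / (2 * π)) * a ≤ (x + b / (2 * π)) * b :=
        mul_le_mul_of_nonneg_left h5 (by positivity)
      have h9 : (x + b / (2 * π)) * b = x * b + b ^ 2 / (2 * π) := by ring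
      have h10 : b ^ 2 / (2 * π) ≤ c ^ 2 / (2 * π) :=
        div_le_div_of_nonneg_right (pow_le_pow_left₀ h7 hcon.le 2) (by positivity)
      have h11 : x * b < x * c := mul_lt_mul_of_pos_left hcon hx0
      linarith
    have hline : ∀ y, r0 ≤ y → y ≤ r0 + j * (δ / c) →
        c * y + c ^ 2 / (2 * π) + δ ≤ FF D u (ε / 2 ^ (j + 1)) y := by
      intro y hy1 hy2
      have h3 := grow (FF_hasDerivAt hD h hεj1) hder hy1 hy2
      have h4 := hmon (j + 1)
      linarith
    rcases le_total s (r0 + j * (δ / c)) with h3 | h3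
    · have := hline s h1 h3
      linarith
    · have h4 := hline _ hT le_rfl
      have h5 := FF_mono hD h hεj1 (hr0.le.trans hT) h3
      have h6 : s ≤ r0 + j * (δ / c) + δ / c := by
        have : (((j + 1 : ℕ) : ℝ)) * (δ / c) = j * (δ / c) + δ / c := by push_cast; ring
        rw [this] at h2
        linarith
      have h7 : c * s ≤ c * (r0 + j * (δ / c)) + δ := by
        have := mul_le_mul_of_nonneg_left h6 hc.le
        have h8 : c * (r0 + j * (δ / c) + δ / c) = c * (r0 + j * (δ / c)) + δ := by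
          field_simp
        linarith
      linarith

/-- the growth theorem, in polar coordinates -/
theorem growth (hD : IsOpen D) (hne : D.Nonempty) (h : IsSolution D u) {ρ : ℝ}
    (hcirc : ∀ r, ρ ≤ r → ∃ t, pt r t ∉ D) :
    ∃ C > 0, ∃ r0 > 0, ∀ r, r0 < r → ∃ t, C * √r ≤ ut D u (pt r t) := by
  have hpi := Real.pi_pos
  have hne2 : (Dᶜ).Nonempty := by
    obtain ⟨t, ht⟩ := hcirc ρ le_rfl
    exact ⟨_, ht⟩
  obtain ⟨ε, hε, r1, hr1, hF⟩ := flux_pos hD hne hne2 h
  set r0 := max r1 (max ρ 1) with hr0def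
  have hr0 : 0 < r0 := lt_of_lt_of_le one_pos ((le_max_right _ _).trans (le_max_right _ _))
  have hρ : ρ ≤ r0 := (le_max_left _ _).trans (le_max_right _ _)
  have hF0 : 0 < FF D u ε r0 := hF.trans_le (FF_mono hD h hε hr1.le (le_max_left _ _))
  set A := FF D u ε r0 with hA
  -- choose the slope
  obtain ⟨c, hc, hc2⟩ : ∃ c > 0, c * r0 + c ^ 2 / (2 * π) + A / 2 ≤ A := by
    refine ⟨min 1 (A / (2 * (r0 + 1))), by positivity, ?_⟩
    set c := min 1 (A / (2 * (r0 + 1))) with hcdef
    have h1 : c ≤ 1 := min_le_left _ _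
    have h2 : c ≤ A / (2 * (r0 + 1)) := min_le_right _ _
    have h0 : 0 < c := by positivity
    rw [le_div_iff₀ (by positivity)] at h2
    have h3 : c ^ 2 / (2 * π) ≤ c := by
      rw [div_le_iff₀ (by positivity)]
      nlinarith [Real.pi_gt_three]
    nlinarith
  have hmain : ∀ R, r0 ≤ R → ∃ δ > 0, c * R ≤ FF D u δ R := by
    intro R hR
    obtain ⟨j, hj⟩ := exists_nat_ge ((R - r0) / (A / 2 / c))
    rw [div_le_iff₀ (by positivity)] at hj
    have := clairaut hD h hr0 (fun r hr => hcirc r (hρ.trans hr)) hε hc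
      (show 0 < A / 2 by positivity) hc2 j R hR (by linarith)
    refine ⟨ε / 2 ^ j, by positivity, ?_⟩
    have h3 : 0 ≤ c ^ 2 / (2 * π) := by positivity
    linarith
  refine ⟨√(c / (8 * π)), by positivity, 2 * r0, by positivity, ?_⟩
  intro r hr
  by_contra hcon
  push Not at hcon
  have hrpos : 0 < r := by linarith
  set m := √(c / (8 * π)) * √r with hm
  have hmsq : m ^ 2 = c / (8 * π) * r := by
    rw [hm, mul_pow, Real.sq_sqrt (by positivity), Real.sq_sqrt hrpos.le]
  -- the maximum on the circle is attained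
  obtain ⟨t0, -, ht0⟩ := (isCompact_Icc (a := (0 : ℝ)) (b := 2 * π)).exists_isMaxOn
    ⟨0, by constructor <;> positivity⟩
    ((ut_cont h).comp (pt_θ_cont r)).continuousOn
  set m' := ut D u (pt r t0) with hm'
  have hm'lt : m' < m := hcon t0
  have hm'0 : 0 ≤ m' := ut_nonneg h _
  have hle : ∀ θ, ut D u (pt r θ) ≤ m' := by
    intro θ
    obtain ⟨y, hy, hy'⟩ := (show Function.Periodic (fun θ => ut D u (pt r θ)) (2 * π) from
      fun θ => by simp only [pt_per]).exists_mem_Ico₀ (by positivity) θ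
    rw [hy']
    exact ht0 ⟨hy.1, hy.2.le⟩
  have hall : ∀ s, 0 ≤ s → s ≤ r → ∀ θ, ut D u (pt s θ) ≤ m' := fun s hs0 hs θ =>
    max_princ hD h hrpos hle hs0 hs θ
  obtain ⟨δ, hδ, hδ2⟩ := hmain (r / 2) (by linarith)
  have hFpos : 0 < FF D u δ (r / 2) := lt_of_lt_of_le (by positivity) hδ2
  have hm'pos : 0 < m' := by
    by_contra hc0
    have h0 : m' = 0 := le_antisymm (not_lt.1 hc0) hm'0
    have h1 := cacc_sq hD h hδ (r := r / 2) (by positivity)
      (hall (r / 2) (by positivity) (by linarith))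
    rw [h0] at h1
    have h2 : 2 * π * (r / 2) * (0 : ℝ) ^ 2 * aa D u δ (r / 2) = 0 := by ring
    rw [h2] at h1
    nlinarith
  -- the differential inequality on `[r / 2, r]`
  have hFp : ∀ x ∈ Icc (r / 2) r, 0 < FF D u δ x := fun x hx =>
    hFpos.trans_le (FF_mono hD h hδ (by positivity) hx.1)
  set K := 2 * π * r * m' ^ 2 with hK
  have hKpos : 0 < K := by positivity
  obtain ⟨x, hx, hx'⟩ := exists_hasDerivAt_eq_slope (fun s => (FF D u δ s)⁻¹)
    (fun s => -(aa D u δ s) / (FF D u δ s) ^ 2) (show r / 2 < r by linarith)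
    (fun y hy => ((FF_hasDerivAt hD h hδ y).continuousAt.inv₀
      (hFp y hy).ne').continuousWithinAt)
    (fun y hy => (FF_hasDerivAt hD h hδ y).inv (hFp y ⟨hy.1.le, hy.2.le⟩).ne')
  have hx0 : 0 < x := by linarith [hx.1]
  have h1 := cacc_sq hD h hδ hx0 (hall x hx0.le hx.2.le)
  have hFx := hFp x ⟨hx.1.le, hx.2.le⟩
  have hax := aa_nonneg (D := D) (u := u) δ hx0.le
  have h2 : FF D u δ x ^ 2 ≤ K * aa D u δ x := by
    refine h1.trans ?_
    apply mul_le_mul_of_nonneg_right _ hax
    rw [hK]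
    apply mul_le_mul_of_nonneg_right _ (sq_nonneg _)
    exact mul_le_mul_of_nonneg_left hx.2.le (by positivity)
  have h3 : -(aa D u δ x) / (FF D u δ x) ^ 2 ≤ - (1 / K) := by
    rw [div_le_iff₀ (by positivity)]
    have : FF D u δ x ^ 2 / K ≤ aa D u δ x := by
      rw [div_le_iff₀ hKpos]
      linarith
    have h4 : -(1 / K) * FF D u δ x ^ 2 = - (FF D u δ x ^ 2 / K) := by ring
    rw [h4]
    linarith
  rw [hx'] at h3
  rw [div_le_iff₀ (by linarith)] at h3
  have h5 : 0 < (FF D u δ r)⁻¹ := inv_pos.2 (hFp r ⟨by linarith, le_rfl⟩)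
  have h6 : r / (2 * K) < (FF D u δ (r / 2))⁻¹ := by
    have : -(1 / K) * (r - r / 2) = - (r / (2 * K)) := by
      field_simp
      ring
    rw [this] at h3
    linarith
  have h7 : FF D u δ (r / 2) < 4 * π * m' ^ 2 := by
    have h8 : r / (2 * K) = 1 / (4 * π * m' ^ 2) := by
      rw [hK]
      field_simp
      ring
    rw [h8, ← one_div] at h6
    exact lt_of_one_div_lt_one_div (by positivity) h6
  have h9 : m' ^ 2 < m ^ 2 := pow_lt_pow_left₀ hm'lt hm'0 two_ne_zero
  rw [hmsq] at h9
  have h10 : 4 * π * m' ^ 2 < 4 * π * (c / (8 * π) * r) :=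
    mul_lt_mul_of_pos_left h9 (by positivity)
  have h11 : 4 * π * (c / (8 * π) * r) = c * (r / 2) := by
    field_simp
    ring
  linarith

end

end Pool.Agent.T6.H57.MG
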