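import Mathlib

/-!
# A weighted Wirtinger inequality and the derivative of a flux over circles
-/

set_option autoImplicit false

open MeasureTheory Set Filter Topology Real

namespace Pool.Agent.T6.H57.MG

noncomputable section

theorem quot_cont (f g k : ℝ → ℝ) (p f'p c : ℝ) (hf : HasDerivAt f f'p p) (hg : HasDerivAt g c p)
    (hfp : f p = 0) (hgp : g p = 0) (hc : c ≠ 0) (hk : ContinuousAt k p) :
    ContinuousAt (fun x => f x ^ 2 * k x / g x) p := by
  rw [continuousAt_iff_punctured_nhds]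
  have h1 : Tendsto (slope f p) (𝓝[≠] p) (𝓝 f'p) := hasDerivAt_iff_tendsto_slope.1 hf
  have h2 : Tendsto (slope g p) (𝓝[≠] p) (𝓝 c) := hasDerivAt_iff_tendsto_slope.1 hg
  have h3 : Tendsto f (𝓝[≠] p) (𝓝 0) := by
    have := hf.continuousAt.tendsto.mono_left (nhdsWithin_le_nhds (s := {p}ᶜ))
    rwa [hfp] at this
  have h4 : Tendsto k (𝓝[≠] p) (𝓝 (k p)) := hk.tendsto.mono_left nhdsWithin_le_nhds
  have h5 := (h3.mul h4).mul (h1.div h2 hc)
  have h6 : (fun x => f x * k x * (slope f p x / slope g p x)) =ᶠ[𝓝[≠] p]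
      fun x => f x ^ 2 * k x / g x := by
    filter_upwards [self_mem_nhdsWithin] with x hx
    have hx' : x - p ≠ 0 := sub_ne_zero.2 hx
    rw [slope_def_field, slope_def_field, hfp, hgp, sub_zero, sub_zero,
      div_div_div_cancel_right₀ hx']
    ring
  have h7 := h5.congr' h6
  simpa [hfp, hgp] using h7

/-- weighted Wirtinger inequality with zero endpoints -/
theorem wirt_weight (f f' w : ℝ → ℝ) (hf : ∀ x, HasDerivAt f (f' x) x) (hf' : Continuous f')
    (hw : Continuous w) (hpos : ∀ x, 0 < w x) (a b : ℝ) (hab : a < b) (ha : f a = 0)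
    (hb : f b = 0) :
    π / (∫ x in a..b, w x) * ∫ x in a..b, f x ^ 2 * w x ≤
      (∫ x in a..b, w x) / π * ∫ x in a..b, f' x ^ 2 / w x := by
  have hfc : Continuous f := continuous_iff_continuousAt.2 (fun x => (hf x).continuousAt)
  have hpi := Real.pi_pos
  set L := ∫ x in a..b, w x with hL
  have hLpos : 0 < L := by
    rw [hL]
    exact intervalIntegral.intervalIntegral_pos_of_pos (hw.intervalIntegrable _ _) hpos hab
  set κ : ℝ := π / L with hκ
  have hκpos : 0 < κ := div_pos hpi hLpos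
  have hκinv : L / π = κ⁻¹ := by rw [hκ, inv_div]
  set σ : ℝ → ℝ := fun x => κ * ∫ t in a..x, w t with hσ
  have hσd : ∀ x, HasDerivAt σ (κ * w x) x := fun x =>
    ((hw.integral_hasStrictDerivAt a x).hasDerivAt).const_mul κ
  have hσa : σ a = 0 := by simp [hσ]
  have hσb : σ b = π := by
    simp only [hσ]
    rw [← hL, hκ]
    field_simp
  have hmono : StrictMono σ := strictMono_of_deriv_pos (fun x => by
    rw [(hσd x).deriv]
    exact mul_pos hκpos (hpos x))
  have hsin : ∀ x, HasDerivAt (fun x => Real.sin (σ x)) (Real.cos (σ x) * (κ * w x)) x :=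
    fun x => (hσd x).sin
  have hcos : ∀ x, HasDerivAt (fun x => Real.cos (σ x)) (- Real.sin (σ x) * (κ * w x)) x :=
    fun x => (hσd x).cos
  have hsinpos : ∀ x, a < x → x < b → 0 < Real.sin (σ x) := by
    intro x h1 h2
    apply Real.sin_pos_of_pos_of_lt_pi
    · rw [← hσa]; exact hmono h1
    · rw [← hσb]; exact hmono h2
  set Ψ : ℝ → ℝ := fun x => f x ^ 2 * Real.cos (σ x) / Real.sin (σ x) with hΨ
  set φ : ℝ → ℝ := fun x => κ⁻¹ * (f' x ^ 2 / w x) - κ * (f x ^ 2 * w x) with hφ
  have hwne : ∀ x, w x ≠ 0 := fun x => (hpos x).ne'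
  have hq1 : Continuous (fun x => f' x ^ 2 / w x) := (hf'.pow 2).div hw hwne
  have hq2 : Continuous (fun x => f x ^ 2 * w x) := (hfc.pow 2).mul hw
  have hφc : Continuous φ := (continuous_const.mul hq1).sub (continuous_const.mul hq2)
  have hend : ∀ x, f x = 0 → Real.sin (σ x) = 0 → Real.cos (σ x) ≠ 0 → ContinuousAt Ψ x := by
    intro x h1 h2 h3
    exact quot_cont f (fun x => Real.sin (σ x)) (fun x => Real.cos (σ x)) x (f' x)
      (Real.cos (σ x) * (κ * w x)) (hf x) (hsin x) h1 h2
      (mul_ne_zero h3 (mul_pos hκpos (hpos x)).ne') (hcos x).continuousAt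
  have hcont : ContinuousOn Ψ (Icc a b) := by
    intro x hx
    apply ContinuousAt.continuousWithinAt
    rcases eq_or_lt_of_le hx.1 with h | h
    · rw [← h]
      exact hend a ha (by rw [hσa, Real.sin_zero]) (by rw [hσa, Real.cos_zero]; norm_num)
    rcases eq_or_lt_of_le hx.2 with h' | h'
    · rw [h']
      exact hend b hb (by rw [hσb, Real.sin_pi]) (by rw [hσb, Real.cos_pi]; norm_num)
    · exact ((hfc.pow 2).continuousAt.mul (hcos x).continuousAt).div (hsin x).continuousAt
        (hsinpos x h h').ne'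
  have hder : ∀ x ∈ Ioo a b, HasDerivWithinAt Ψ
      ((((2 * f x * f' x) * Real.cos (σ x) + f x ^ 2 * (- Real.sin (σ x) * (κ * w x))) *
        Real.sin (σ x) - f x ^ 2 * Real.cos (σ x) * (Real.cos (σ x) * (κ * w x)))
      / (Real.sin (σ x)) ^ 2) (Ioi x) x := by
    intro x hx
    have hs := hsinpos x hx.1 hx.2
    have h3 : HasDerivAt (fun u => f u ^ 2) (2 * f x * f' x) x := by
      have h5 := (hf x).mul (hf x)
      exact (h5.congr_deriv (by ring)).congr_of_eventuallyEq
        (Eventually.of_forall fun u => by simp [pow_two])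
    have h4 := (h3.mul (hcos x)).div (hsin x) hs.ne'
    exact h4.hasDerivWithinAt
  have hle : ∀ x ∈ Ioo a b, (((2 * f x * f' x) * Real.cos (σ x) +
        f x ^ 2 * (- Real.sin (σ x) * (κ * w x))) *
        Real.sin (σ x) - f x ^ 2 * Real.cos (σ x) * (Real.cos (σ x) * (κ * w x)))
      / (Real.sin (σ x)) ^ 2 ≤ φ x := by
    intro x hx
    have hs := hsinpos x hx.1 hx.2
    have hw0 := hpos x
    have hsc := Real.sin_sq_add_cos_sq (σ x)
    simp only [hφ]
    set S := Real.sin (σ x)
    set C := Real.cos (σ x)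
    rw [div_le_iff₀ (by positivity)]
    have hkey : (κ⁻¹ * (f' x ^ 2 / w x) - κ * (f x ^ 2 * w x)) * S ^ 2 -
        (((2 * f x * f' x) * C + f x ^ 2 * (-S * (κ * w x))) * S -
          f x ^ 2 * C * (C * (κ * w x))) =
        (f' x * S - κ * w x * f x * C) ^ 2 / (κ * w x) := by
      field_simp
      ring_nf
    have : 0 ≤ (f' x * S - κ * w x * f x * C) ^ 2 / (κ * w x) := by positivity
    linarith
  have hmain := intervalIntegral.sub_le_integral_of_hasDeriv_right_of_le hab.le hcont hder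
    (hφc.integrableOn_Icc) hle
  have hΨa : Ψ a = 0 := by simp [hΨ, ha]
  have hΨb : Ψ b = 0 := by simp [hΨ, hb]
  rw [hΨa, hΨb, sub_zero] at hmain
  simp only [hφ] at hmain
  have hq1' : Continuous (fun x => κ⁻¹ * (f' x ^ 2 / w x)) := continuous_const.mul hq1
  have hq2' : Continuous (fun x => κ * (f x ^ 2 * w x)) := continuous_const.mul hq2
  rw [intervalIntegral.integral_sub (hq1'.intervalIntegrable _ _)
    (hq2'.intervalIntegrable _ _), intervalIntegral.integral_const_mul, intervalIntegral.integral_const_mul] at hmain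
  rw [hκinv]
  linarith

theorem wirt_mul (f f' w y : ℝ → ℝ) (hf : ∀ x, HasDerivAt f (f' x) x) (hf' : Continuous f')
    (hw : Continuous w) (hpos : ∀ x, 0 < w x) (hy : Continuous y) (a b : ℝ) (hab : a < b)
    (ha : f a = 0) (hb : f b = 0) :
    ∫ x in a..b, f x * y x ≤
      (∫ x in a..b, w x) / (2 * π) * ∫ x in a..b, (f' x ^ 2 + y x ^ 2) / w x := by
  have hfc : Continuous f := continuous_iff_continuousAt.2 (fun x => (hf x).continuousAt)
  have hpi := Real.pi_pos
  have hwne : ∀ x, w x ≠ 0 := fun x => (hpos x).ne'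
  have h := wirt_weight f f' w hf hf' hw hpos a b hab ha hb
  set L := ∫ x in a..b, w x with hL
  have hLpos : 0 < L := by
    rw [hL]
    exact intervalIntegral.intervalIntegral_pos_of_pos (hw.intervalIntegrable _ _) hpos hab
  have c1 : Continuous (fun x => π / (2 * L) * (f x ^ 2 * w x)) :=
    continuous_const.mul ((hfc.pow 2).mul hw)
  have c2 : Continuous (fun x => L / (2 * π) * (y x ^ 2 / w x)) :=
    continuous_const.mul ((hy.pow 2).div hw hwne)
  have c3 : Continuous (fun x => f' x ^ 2 / w x) := (hf'.pow 2).div hw hwne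
  have c4 : Continuous (fun x => y x ^ 2 / w x) := (hy.pow 2).div hw hwne
  have h1 : ∫ x in a..b, f x * y x ≤
      ∫ x in a..b, (π / (2 * L) * (f x ^ 2 * w x) + L / (2 * π) * (y x ^ 2 / w x)) := by
    apply intervalIntegral.integral_mono hab.le ((hfc.mul hy).intervalIntegrable _ _)
      ((c1.add c2).intervalIntegrable _ _)
    intro x
    have hw0 := hpos x
    have hkey : (π / (2 * L) * (f x ^ 2 * w x) + L / (2 * π) * (y x ^ 2 / w x)) - f x * y x =
        (π * w x * f x - L * y x) ^ 2 / (2 * L * π * w x) := by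
      field_simp
      ring
    have : 0 ≤ (π * w x * f x - L * y x) ^ 2 / (2 * L * π * w x) := by positivity
    show f x * y x ≤ π / (2 * L) * (f x ^ 2 * w x) + L / (2 * π) * (y x ^ 2 / w x)
    linarith
  rw [intervalIntegral.integral_add (c1.intervalIntegrable _ _) (c2.intervalIntegrable _ _),
    intervalIntegral.integral_const_mul, intervalIntegral.integral_const_mul] at h1
  have h2 : ∫ x in a..b, (f' x ^ 2 + y x ^ 2) / w x =
      (∫ x in a..b, f' x ^ 2 / w x) + ∫ x in a..b, y x ^ 2 / w x := by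
    rw [← intervalIntegral.integral_add (c3.intervalIntegrable _ _) (c4.intervalIntegrable _ _)]
    congr 1
    funext x
    rw [add_div]
  rw [h2]
  have h3 : π / (2 * L) * ∫ x in a..b, f x ^ 2 * w x =
      (1 / 2) * (π / L * ∫ x in a..b, f x ^ 2 * w x) := by
    field_simp
  have h4 : L / (2 * π) * ((∫ x in a..b, f' x ^ 2 / w x) + ∫ x in a..b, y x ^ 2 / w x) =
      (1 / 2) * (L / π * ∫ x in a..b, f' x ^ 2 / w x) + L / (2 * π) * ∫ x in a..b, y x ^ 2 / w x := by
    field_simp
  rw [h4]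
  rw [h3] at h1
  linarith

/-- derivative under the integral sign -/
theorem deriv_under (F F' : ℝ → ℝ → ℝ) (hF : Continuous (fun p : ℝ × ℝ => F p.1 p.2))
    (hF' : Continuous (fun p : ℝ × ℝ => F' p.1 p.2))
    (hd : ∀ x t, HasDerivAt (fun x => F x t) (F' x t) x) (a b x0 : ℝ) :
    HasDerivAt (fun x => ∫ t in a..b, F x t) (∫ t in a..b, F' x0 t) x0 := by
  have hK : IsCompact (Icc (x0 - 1) (x0 + 1) ×ˢ uIcc a b) := isCompact_Icc.prod isCompact_uIcc
  obtain ⟨C, hC⟩ := hK.exists_bound_of_continuousOn hF'.continuousOn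
  have hF1 : ∀ x, Continuous (fun t => F x t) := fun x =>
    hF.comp (continuous_const.prodMk continuous_id)
  have hF2 : ∀ x, Continuous (fun t => F' x t) := fun x =>
    hF'.comp (continuous_const.prodMk continuous_id)
  exact (intervalIntegral.hasDerivAt_integral_of_dominated_loc_of_deriv_le
    (F := F) (F' := F') (bound := fun _ => C) (s := Icc (x0 - 1) (x0 + 1))
    (Icc_mem_nhds (by linarith) (by linarith))
    (Eventually.of_forall fun x => (hF1 x).aestronglyMeasurable)
    ((hF1 x0).intervalIntegrable _ _) (hF2 x0).aestronglyMeasurable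
    (Eventually.of_forall fun t ht x hx => hC (x, t) ⟨hx, uIoc_subset_uIcc ht⟩)
    intervalIntegrable_const
    (Eventually.of_forall fun t _ x _ => hd x t)).2

/-- the point with polar coordinates `(r, θ)` -/
def pt (r θ : ℝ) : ℂ := ⟨r * Real.cos θ, r * Real.sin θ⟩

theorem pt_cont : Continuous (fun p : ℝ × ℝ => pt p.1 p.2) := by
  have : (fun p : ℝ × ℝ => pt p.1 p.2) = fun p : ℝ × ℝ =>
      Complex.equivRealProdCLM.symm (p.1 * Real.cos p.2, p.1 * Real.sin p.2) := by
    funext p
    apply Complex.ext <;> simp [pt]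
  rw [this]
  fun_prop

theorem pt_hasDerivAt_r (r θ : ℝ) :
    HasDerivAt (fun r => pt r θ) (⟨Real.cos θ, Real.sin θ⟩ : ℂ) r := by
  have : (fun r => pt r θ) = fun r : ℝ => r • (⟨Real.cos θ, Real.sin θ⟩ : ℂ) := by
    funext r
    apply Complex.ext <;> simp [pt]
  rw [this]
  simpa using (hasDerivAt_id r).smul_const (⟨Real.cos θ, Real.sin θ⟩ : ℂ)

theorem pt_hasDerivAt_θ (r θ : ℝ) :
    HasDerivAt (fun θ => pt r θ) (⟨- (r * Real.sin θ), r * Real.cos θ⟩ : ℂ) θ := by
  have h1 : (fun θ => pt r θ) = fun θ : ℝ => (r * Real.cos θ) • (1 : ℂ) +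
      (r * Real.sin θ) • Complex.I := by
    funext r
    apply Complex.ext <;> simp [pt, Complex.cos_ofReal_re, Complex.sin_ofReal_re]
  rw [h1]
  have h2 := (((Real.hasDerivAt_cos θ).const_mul r).smul_const (1 : ℂ)).add
    (((Real.hasDerivAt_sin θ).const_mul r).smul_const Complex.I)
  refine h2.congr_deriv ?_
  apply Complex.ext <;> simp [Complex.cos_ofReal_re, Complex.sin_ofReal_re]

theorem hasDerivAt_comp_pt_r (X : ℂ → ℝ) (hX : ContDiff ℝ 1 X) (r θ : ℝ) :
    HasDerivAt (fun r => X (pt r θ))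
      (Real.cos θ * fderiv ℝ X (pt r θ) 1 + Real.sin θ * fderiv ℝ X (pt r θ) Complex.I) r := by
  have h1 : HasFDerivAt X (fderiv ℝ X (pt r θ)) (pt r θ) :=
    (hX.differentiable (by norm_num) _).hasFDerivAt
  have h2 := h1.comp_hasDerivAt r (pt_hasDerivAt_r r θ)
  refine h2.congr_deriv ?_
  have h3 : (⟨Real.cos θ, Real.sin θ⟩ : ℂ) = Real.cos θ • (1 : ℂ) + Real.sin θ • Complex.I := by
    apply Complex.ext <;> simp [Complex.cos_ofReal_re, Complex.sin_ofReal_re]
  rw [h3, map_add, map_smul, map_smul, smul_eq_mul, smul_eq_mul]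

theorem hasDerivAt_comp_pt_θ (X : ℂ → ℝ) (hX : ContDiff ℝ 1 X) (r θ : ℝ) :
    HasDerivAt (fun θ => X (pt r θ))
      (r * (Real.cos θ * fderiv ℝ X (pt r θ) Complex.I - Real.sin θ * fderiv ℝ X (pt r θ) 1)) θ := by
  have h1 : HasFDerivAt X (fderiv ℝ X (pt r θ)) (pt r θ) :=
    (hX.differentiable (by norm_num) _).hasFDerivAt
  have h2 := h1.comp_hasDerivAt θ (pt_hasDerivAt_θ r θ)
  refine h2.congr_deriv ?_
  have h3 : (⟨- (r * Real.sin θ), r * Real.cos θ⟩ : ℂ) =
      (-(r * Real.sin θ)) • (1 : ℂ) + (r * Real.cos θ) • Complex.I := by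
    apply Complex.ext <;> simp [Complex.cos_ofReal_re, Complex.sin_ofReal_re]
  rw [h3, map_add, map_smul, map_smul, smul_eq_mul, smul_eq_mul]
  ring

theorem fderiv_cont (X : ℂ → ℝ) (hX : ContDiff ℝ 1 X) (v : ℂ) :
    Continuous (fun z => fderiv ℝ X z v) :=
  (hX.continuous_fderiv (by norm_num)).clm_apply continuous_const

/-- the derivative of the flux of `(X, Y)` through the circle of radius `r` -/
theorem flux_deriv (X Y : ℂ → ℝ) (hX : ContDiff ℝ 1 X) (hY : ContDiff ℝ 1 Y) (r : ℝ) :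
    HasDerivAt (fun r => ∫ θ in (0 : ℝ)..(2 * π),
        r * (X (pt r θ) * Real.cos θ + Y (pt r θ) * Real.sin θ))
      (∫ θ in (0 : ℝ)..(2 * π),
        r * (fderiv ℝ X (pt r θ) 1 + fderiv ℝ Y (pt r θ) Complex.I)) r := by
  have hXc := hX.continuous
  have hYc := hY.continuous
  have hX1 := fderiv_cont X hX 1
  have hXI := fderiv_cont X hX Complex.I
  have hY1 := fderiv_cont Y hY 1
  have hYI := fderiv_cont Y hY Complex.I
  have cc : Continuous (fun p : ℝ × ℝ => Real.cos p.2) := Real.continuous_cos.comp continuous_snd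
  have cs : Continuous (fun p : ℝ × ℝ => Real.sin p.2) := Real.continuous_sin.comp continuous_snd
  have k1 := hX1.comp pt_cont
  have k2 := hXI.comp pt_cont
  have k3 := hY1.comp pt_cont
  have k4 := hYI.comp pt_cont
  have k5 := hXc.comp pt_cont
  have k6 := hYc.comp pt_cont
  have key := deriv_under
    (fun r θ => r * (X (pt r θ) * Real.cos θ + Y (pt r θ) * Real.sin θ))
    (fun r θ => (X (pt r θ) * Real.cos θ + Y (pt r θ) * Real.sin θ) +
      r * ((Real.cos θ * fderiv ℝ X (pt r θ) 1 + Real.sin θ * fderiv ℝ X (pt r θ) Complex.I)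
        * Real.cos θ +
        (Real.cos θ * fderiv ℝ Y (pt r θ) 1 + Real.sin θ * fderiv ℝ Y (pt r θ) Complex.I)
        * Real.sin θ))
    (continuous_fst.mul ((k5.mul cc).add (k6.mul cs)))
    (((k5.mul cc).add (k6.mul cs)).add (continuous_fst.mul
      ((((cc.mul k1).add (cs.mul k2)).mul cc).add (((cc.mul k3).add (cs.mul k4)).mul cs))))
    (fun x t => by
      have h1 := (hasDerivAt_comp_pt_r X hX x t).mul_const (Real.cos t)
      have h2 := (hasDerivAt_comp_pt_r Y hY x t).mul_const (Real.sin t)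
      have h3 := (hasDerivAt_id x).mul (h1.add h2)
      refine h3.congr_deriv ?_
      simp) 0 (2 * π) r
  refine key.congr_deriv ?_
  -- the tangential component
  have hQ : ∀ θ, HasDerivAt (fun θ => Y (pt r θ) * Real.cos θ - X (pt r θ) * Real.sin θ)
      (r * (fderiv ℝ X (pt r θ) 1 + fderiv ℝ Y (pt r θ) Complex.I) -
      ((X (pt r θ) * Real.cos θ + Y (pt r θ) * Real.sin θ) +
      r * ((Real.cos θ * fderiv ℝ X (pt r θ) 1 + Real.sin θ * fderiv ℝ X (pt r θ) Complex.I)
        * Real.cos θ +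
        (Real.cos θ * fderiv ℝ Y (pt r θ) 1 + Real.sin θ * fderiv ℝ Y (pt r θ) Complex.I)
        * Real.sin θ))) θ := by
    intro θ
    have h1 := (hasDerivAt_comp_pt_θ X hX r θ).mul (Real.hasDerivAt_sin θ)
    have h2 := (hasDerivAt_comp_pt_θ Y hY r θ).mul (Real.hasDerivAt_cos θ)
    refine (h2.sub h1).congr_deriv ?_
    have h3 := Real.sin_sq_add_cos_sq θ
    have h4 : Real.sin θ ^ 2 = 1 - Real.cos θ ^ 2 := by linarith
    ring_nf
    rw [h4]
    ring
  have cc' : Continuous (fun θ : ℝ => Real.cos θ) := Real.continuous_cos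
  have cs' : Continuous (fun θ : ℝ => Real.sin θ) := Real.continuous_sin
  have e : Continuous (fun θ : ℝ => (r, θ)) := continuous_const.prodMk continuous_id
  have j1 := k1.comp e
  have j2 := k2.comp e
  have j3 := k3.comp e
  have j4 := k4.comp e
  have j5 := k5.comp e
  have j6 := k6.comp e
  have c1 : Continuous (fun θ : ℝ =>
      r * (fderiv ℝ X (pt r θ) 1 + fderiv ℝ Y (pt r θ) Complex.I)) :=
    continuous_const.mul (j1.add j4)
  have c2 : Continuous (fun θ : ℝ => (X (pt r θ) * Real.cos θ + Y (pt r θ) * Real.sin θ) +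
      r * ((Real.cos θ * fderiv ℝ X (pt r θ) 1 + Real.sin θ * fderiv ℝ X (pt r θ) Complex.I)
        * Real.cos θ +
        (Real.cos θ * fderiv ℝ Y (pt r θ) 1 + Real.sin θ * fderiv ℝ Y (pt r θ) Complex.I)
        * Real.sin θ)) :=
    ((j5.mul cc').add (j6.mul cs')).add (continuous_const.mul
      ((((cc'.mul j1).add (cs'.mul j2)).mul cc').add (((cc'.mul j3).add (cs'.mul j4)).mul cs')))
  have h5 := intervalIntegral.integral_eq_sub_of_hasDerivAt (a := 0) (b := 2 * π)
    (fun θ _ => hQ θ) ((c1.sub c2).intervalIntegrable _ _)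
  rw [intervalIntegral.integral_sub (c1.intervalIntegrable _ _) (c2.intervalIntegrable _ _)] at h5
  have h6 : pt r (2 * π) = pt r 0 := by
    apply Complex.ext <;> simp [pt]
  rw [h6, Real.cos_two_pi, Real.sin_two_pi, Real.cos_zero, Real.sin_zero, sub_self] at h5
  linarith

end

end Pool.Agent.T6.H57.MG
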